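import Pool.Agent.Q51.ZC.Stm
import Pool.Agent.Erdos456.Mertens

/-!
# Project ZC (helper51), jobs HT, SMO, SUMM: sums over squarefree numbers

Proofs by helper210.
-/

set_option autoImplicit false

namespace Pool.Agent.Q210.ZC

open Finset
open Pool.Agent.Q51.EL (pr)

/-- a sum over squarefree numbers is at most a product -/
theorem sum_sqf_le (Q A : Finset ℕ) (hA : ∀ m ∈ A, Squarefree m ∧ m.primeFactors ⊆ Q) (h : ℕ → ℝ)
    (h0 : ∀ l ∈ Q, 0 ≤ h l) : ∑ m ∈ A, ∏ l ∈ m.primeFactors, h l ≤ ∏ l ∈ Q, (1 + h l) := by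
  classical
  rw [Finset.prod_one_add]
  have hinj : Set.InjOn Nat.primeFactors (A : Set ℕ) := by
    intro m hm m' hm' he
    rw [← Nat.prod_primeFactors_of_squarefree (hA m hm).1,
      ← Nat.prod_primeFactors_of_squarefree (hA m' hm').1, he]
  rw [← Finset.sum_image (f := fun t : Finset ℕ => ∏ l ∈ t, h l) hinj]
  refine Finset.sum_le_sum_of_subset_of_nonneg ?_ ?_
  · intro t ht
    obtain ⟨m, hm, rfl⟩ := Finset.mem_image.1 ht
    exact Finset.mem_powerset.2 (hA m hm).2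
  · intro t ht _
    exact Finset.prod_nonneg fun l hl => h0 l (Finset.mem_powerset.1 ht hl)

theorem prod_le_exp (Q : Finset ℕ) (h : ℕ → ℝ) (h0 : ∀ l ∈ Q, 0 ≤ h l) :
    ∏ l ∈ Q, (1 + h l) ≤ Real.exp (∑ l ∈ Q, h l) := by
  rw [Real.exp_sum]
  refine Finset.prod_le_prod (fun l hl => by have := h0 l hl; linarith) fun l _ => ?_
  rw [add_comm]
  exact Real.add_one_le_exp _

/-- `1 / m` as a product -/
theorem inv_prod {m : ℕ} (hm : Squarefree m) : (1 : ℝ) / m = ∏ l ∈ m.primeFactors, (1 : ℝ) / l := by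
  conv_lhs => rw [← Nat.prod_primeFactors_of_squarefree hm]
  push_cast
  rw [Finset.prod_div_distrib, Finset.prod_const_one]

theorem mem_pr {Y : ℝ} {l : ℕ} : l ∈ pr Y ↔ l.Prime ∧ l ≤ ⌊Y⌋₊ := by
  unfold pr
  rw [Finset.mem_filter, Finset.mem_Icc]
  constructor
  · rintro ⟨⟨_, h2⟩, h3⟩
    exact ⟨h3, h2⟩
  · rintro ⟨h3, h2⟩
    exact ⟨⟨h3.one_lt.le, h2⟩, h3⟩

/-- prime factors of the numbers of the set -/
theorem pf_sub {P : Set ℕ} {X : ℝ} {m : ℕ} [DecidablePred fun l => l ∈ P] (hm : m ∈ Icc 1 ⌊X⌋₊)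
    (h : ∀ l : ℕ, l.Prime → l ∣ m → l ∈ P) : m.primeFactors ⊆ (pr X).filter (fun l => l ∈ P) := by
  intro l hl
  rw [Finset.mem_Icc] at hm
  rw [Nat.mem_primeFactors] at hl
  rw [Finset.mem_filter, mem_pr]
  exact ⟨⟨hl.1, (Nat.le_of_dvd (by omega) hl.2.1).trans hm.2⟩, h l hl.1 hl.2.1⟩

end Pool.Agent.Q210.ZC
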