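import Pool.Agent.Q210.ZC.Base

/-!
# Project ZC (helper51), job HT: an upper bound for the number of integers composed of given primes

Proof by helper210.
-/

set_option autoImplicit false

namespace Pool.Agent.Q210.ZC

open Finset
open Pool.Agent.Q51.EL (pr)
open Pool.Agent.Q51.ZC (S_HT)

theorem ht : S_HT := by
  classical
  refine ⟨Real.log 4 + 1, by have := Real.log_pos (by norm_num : (1 : ℝ) < 4); linarith,
    fun P X hX => ?_⟩
  have hl4 : 0 < Real.log 4 := Real.log_pos (by norm_num)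
  have hX0 : 0 < X := by linarith
  have hlX : 0 < Real.log X := Real.log_pos (by linarith)
  set A : Finset ℕ := (Icc 1 ⌊X⌋₊).filter (fun m : ℕ => Squarefree m ∧
    ∀ l : ℕ, l.Prime → l ∣ m → l ∈ P) with hA
  have hmem : ∀ m, m ∈ A ↔ (1 ≤ m ∧ m ≤ ⌊X⌋₊) ∧ Squarefree m ∧
      ∀ l : ℕ, l.Prime → l ∣ m → l ∈ P := by
    intro m
    rw [hA, Finset.mem_filter, Finset.mem_Icc]
  set S1 : ℝ := ∑ m ∈ A, (1 : ℝ) / m with hS1
  have hS0 : 0 ≤ S1 := Finset.sum_nonneg fun _ _ => by positivity
  -- the sum of the logarithms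
  have h1 : ∑ m ∈ A, Real.log m ≤ Real.log 4 * X * S1 := by
    have e1 : ∀ m ∈ A, Real.log m = ∑ l ∈ pr X, if l ∣ m then Real.log l else 0 := by
      intro m hm
      obtain ⟨⟨h2, h3⟩, h4, h5⟩ := (hmem m).1 hm
      have e2 : (pr X).filter (fun l => l ∣ m) = m.primeFactors := by
        ext l
        rw [Finset.mem_filter, mem_pr, Nat.mem_primeFactors]
        constructor
        · rintro ⟨⟨h6, _⟩, h7⟩
          exact ⟨h6, h7, by omega⟩
        · rintro ⟨h6, h7, _⟩
          exact ⟨⟨h6, (Nat.le_of_dvd (by omega) h7).trans h3⟩, h7⟩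
      rw [← Finset.sum_filter, e2]
      conv_lhs => rw [← Nat.prod_primeFactors_of_squarefree h4]
      push_cast
      rw [Real.log_prod]
      intro l hl
      have := (Nat.prime_of_mem_primeFactors hl).pos
      positivity
    rw [Finset.sum_congr rfl e1, Finset.sum_comm]
    have e3 : ∀ l ∈ pr X, ∑ m ∈ A, (if l ∣ m then Real.log l else 0) ≤
        ∑ k ∈ A, if k * l ≤ ⌊X⌋₊ then Real.log l else 0 := by
      intro l hl
      have hlp := (mem_pr.1 hl).1
      have hll : 0 ≤ Real.log l := Real.log_nonneg (by exact_mod_cast hlp.one_lt.le)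
      rw [← Finset.sum_filter, ← Finset.sum_filter, Finset.sum_const, Finset.sum_const,
        nsmul_eq_mul, nsmul_eq_mul]
      refine mul_le_mul_of_nonneg_right ?_ hll
      have : (A.filter fun m => l ∣ m).card ≤ (A.filter fun k => k * l ≤ ⌊X⌋₊).card := by
        refine Finset.card_le_card_of_injOn (fun m => m / l) ?_ ?_
        · intro m hm
          rw [Finset.mem_coe, Finset.mem_filter] at hm
          rw [Finset.mem_coe, Finset.mem_filter]
          obtain ⟨hm1, k, rfl⟩ := hm
          obtain ⟨⟨h2, h3⟩, h4, h5⟩ := (hmem _).1 hm1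
          have hk : 1 ≤ k := by
            rcases Nat.eq_zero_or_pos k with h | h
            · subst h; simp at h2
            · exact h
          beta_reduce
          rw [Nat.mul_div_cancel_left _ hlp.pos]
          refine ⟨(hmem k).2 ⟨⟨hk, ?_⟩, h4.of_mul_right, fun p hp hpk => h5 p hp
            (dvd_mul_of_dvd_right hpk _)⟩, by rw [mul_comm]; exact h3⟩
          exact (Nat.le_mul_of_pos_left _ hlp.pos).trans h3
        · intro m hm m' hm' he
          rw [Finset.mem_coe, Finset.mem_filter] at hm hm'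
          obtain ⟨_, k, rfl⟩ := hm
          obtain ⟨_, k', rfl⟩ := hm'
          simp only at he
          rw [Nat.mul_div_cancel_left _ hlp.pos, Nat.mul_div_cancel_left _ hlp.pos] at he
          rw [he]
      exact_mod_cast this
    refine (Finset.sum_le_sum e3).trans ?_
    rw [Finset.sum_comm, hS1, Finset.mul_sum]
    refine Finset.sum_le_sum fun k hk => ?_
    obtain ⟨⟨h2, h3⟩, h4, h5⟩ := (hmem k).1 hk
    have hk0 : (0 : ℝ) < k := by exact_mod_cast h2
    have h6 := Chebyshev.theta_le_log4_mul_x (x := X / k) (by positivity)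
    have h7 : ∑ l ∈ pr X, (if k * l ≤ ⌊X⌋₊ then Real.log l else 0) ≤ Chebyshev.theta (X / k) := by
      rw [← Finset.sum_filter]
      unfold Chebyshev.theta
      refine Finset.sum_le_sum_of_subset_of_nonneg ?_ ?_
      · intro l hl
        rw [Finset.mem_filter, mem_pr] at hl
        rw [Finset.mem_filter, Finset.mem_Ioc]
        refine ⟨⟨hl.1.1.pos, ?_⟩, hl.1.1⟩
        refine Nat.le_floor ?_
        rw [le_div_iff₀ hk0]
        have h8 : ((k * l : ℕ) : ℝ) ≤ X := (Nat.cast_le.2 hl.2).trans (Nat.floor_le hX0.le)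
        push_cast at h8
        linarith
      · intro l hl _
        rw [Finset.mem_filter, Finset.mem_Ioc] at hl
        exact Real.log_nonneg (by exact_mod_cast hl.1.1)
    refine h7.trans (h6.trans (le_of_eq ?_))
    ring
  have h2 : ∑ m ∈ A, Real.log (X / m) ≤ X * S1 := by
    rw [hS1, Finset.mul_sum]
    refine Finset.sum_le_sum fun m hm => ?_
    obtain ⟨⟨h2, h3⟩, _⟩ := (hmem m).1 hm
    have hm0 : (0 : ℝ) < m := by exact_mod_cast h2
    have h4 := Real.log_le_sub_one_of_pos (x := X / m) (by positivity)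
    have h5 : X * (1 / m) = X / m := by ring
    rw [h5]
    linarith
  have h3 : (A.card : ℝ) * Real.log X ≤ (Real.log 4 + 1) * X * S1 := by
    have e1 : (A.card : ℝ) * Real.log X = ∑ m ∈ A, Real.log m + ∑ m ∈ A, Real.log (X / m) := by
      rw [← Finset.sum_add_distrib, ← nsmul_eq_mul, ← Finset.sum_const]
      refine Finset.sum_congr rfl fun m hm => ?_
      obtain ⟨⟨h2, h3⟩, _⟩ := (hmem m).1 hm
      have hm0 : (m : ℝ) ≠ 0 := by
        have : (0 : ℝ) < m := by exact_mod_cast h2
        exact this.ne'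
      rw [Real.log_div hX0.ne' hm0]
      ring
    rw [e1]
    linarith
  have h4 : S1 ≤ Real.exp (∑ l ∈ (pr X).filter (fun l => l ∈ P), (1 : ℝ) / l) := by
    have e1 : S1 = ∑ m ∈ A, ∏ l ∈ m.primeFactors, (1 : ℝ) / l :=
      Finset.sum_congr rfl fun m hm => inv_prod ((hmem m).1 hm).2.1
    rw [e1]
    have h5 : ∀ l ∈ (pr X).filter (fun l => l ∈ P), (0 : ℝ) ≤ 1 / (l : ℝ) :=
      fun l _ => by positivity
    refine (sum_sqf_le ((pr X).filter (fun l => l ∈ P)) A (fun m hm => ?_) _ h5).trans
      (prod_le_exp _ _ h5)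
    obtain ⟨h6, h7, h8⟩ := (hmem m).1 hm
    exact ⟨h7, pf_sub (Finset.mem_Icc.2 h6) h8⟩
  have h5 : (A.card : ℝ) ≤ (Real.log 4 + 1) * X / Real.log X * S1 := by
    rw [div_mul_eq_mul_div, le_div_iff₀ hlX]
    exact h3
  refine le_trans ?_ (h5.trans (mul_le_mul_of_nonneg_left h4 (by positivity)))
  exact le_of_eq (by rfl)

end Pool.Agent.Q210.ZC
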