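import Pool.Agent.Q35.ZC.Stm

/-! # Job ZC-MAP: extension of the base field -/

set_option autoImplicit false

open Polynomial Pool.Agent.Y720.MZ Pool.Agent.Q35.ZC

namespace Pool.Agent.Q210.ZC

section

variable {F F' : Type} [Field F] [Field F'] (φ : F →+* F') {n : ℕ}

/-- the map on points -/
def pm (P : (Fin n → F) × F) : (Fin n → F') × F' := ((fun k => φ (P.1 k)), φ P.2)

theorem md_pt (x : Fin n → F) (w : F) : (pt x w).mapDomain (pm φ) = pt (fun k => φ (x k)) (φ w) := by
  unfold Pool.Agent.Q35.ZC.pt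
  rw [Finsupp.mapDomain_single]
  rfl

theorem md_sub (a b : ((Fin n → F) × F) →₀ ℤ) :
    (a - b).mapDomain (pm φ) = a.mapDomain (pm φ) - b.mapDomain (pm φ) :=
  (Finsupp.mapDomain.addMonoidHom (pm φ)).map_sub a b

theorem md_add (a b : ((Fin n → F) × F) →₀ ℤ) :
    (a + b).mapDomain (pm φ) = a.mapDomain (pm φ) + b.mapDomain (pm φ) :=
  (Finsupp.mapDomain.addMonoidHom (pm φ)).map_add a b

theorem md_neg (a : ((Fin n → F) × F) →₀ ℤ) :
    (-a).mapDomain (pm φ) = -(a.mapDomain (pm φ)) :=
  (Finsupp.mapDomain.addMonoidHom (pm φ)).map_neg a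

theorem md_dl (x : Fin n → F) (w : F) : (dl x w).mapDomain (pm φ) = dl (fun k => φ (x k)) (φ w) := by
  unfold dl
  rw [md_sub, md_pt, md_pt, map_neg]

theorem single_map (i : Fin n) : (fun a => φ ((Pi.single i 1 : Fin n → F) a)) = (Pi.single i 1 : Fin n → F') := by
  funext k
  by_cases h : k = i
  · subst h; simp
  · simp [h]

theorem mv_map (x : Fin n → F) (i : Fin n) (t : F) :
    (fun k => φ (mv x i t k)) = mv (fun k => φ (x k)) i (φ t) := by
  funext k
  have h := congrFun (single_map φ i) k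
  simp only [mv, map_add, map_mul]
  rw [h]

theorem rst_map' (f : MvPolynomial (Fin n) F) (z e : Fin n → F) : (rst f z e).map φ =
    rst (MvPolynomial.map φ f) (fun a => φ (z a)) (fun a => φ (e a)) := by
  induction f using MvPolynomial.induction_on with
  | C a => simp [rst]
  | add p q hp hq => simp only [rst, map_add, Polynomial.map_add] at *; rw [hp, hq]
  | mul_X p i hp =>
    simp only [rst, map_mul, Polynomial.map_mul, MvPolynomial.aeval_X, MvPolynomial.map_X] at *
    rw [hp]
    simp

theorem aeval_map' (f : MvPolynomial (Fin n) F) (c : Fin n → F[X]) : (MvPolynomial.aeval c f).map φ =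
    MvPolynomial.aeval (fun k => (c k).map φ) (MvPolynomial.map φ f) := by
  induction f using MvPolynomial.induction_on with
  | C a => simp
  | add p q hp hq => simp only [map_add, Polynomial.map_add]; rw [hp, hq]
  | mul_X p i hp =>
    simp only [map_mul, Polynomial.map_mul, MvPolynomial.aeval_X, MvPolynomial.map_X]
    rw [hp]

theorem eval_map'' (f : MvPolynomial (Fin n) F) (x : Fin n → F) : φ (MvPolynomial.eval x f) =
    MvPolynomial.eval (fun k => φ (x k)) (MvPolynomial.map φ f) := by
  induction f using MvPolynomial.induction_on with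
  | C a => simp
  | add p q hp hq => simp only [map_add]; rw [hp, hq]
  | mul_X p i hp =>
    simp only [map_mul, MvPolynomial.eval_X, MvPolynomial.map_X]
    rw [hp]

theorem zeros_map {q u v : F[X]} {T : Multiset (F × F)} (h : Zeros q u v T) :
    Zeros (q.map φ) (u.map φ) (v.map φ) (T.map (Prod.map φ φ)) := by
  obtain ⟨h1, h2, ⟨κ, hκ, h3⟩, M, h4, h5, h6⟩ := h
  refine ⟨?_, ?_, ⟨φ κ, (map_ne_zero φ).2 hκ, ?_⟩, M, by rw [Multiset.card_map, h4],
    Polynomial.natDegree_map_le.trans h5, (Nat.add_le_add_right Polynomial.natDegree_map_le 2).trans h6⟩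
  · exact h1.map (Polynomial.mapRingHom φ)
  · intro s hs
    obtain ⟨s0, hs0, rfl⟩ := Multiset.mem_map.1 hs
    obtain ⟨a, b⟩ := h2 s0 hs0
    constructor
    · show φ s0.2 ^ 2 = (q.map φ).eval (φ s0.1)
      rw [Polynomial.eval_map, Polynomial.eval₂_at_apply, ← a, map_pow]
    · show (u.map φ).eval (φ s0.1) + (v.map φ).eval (φ s0.1) * φ s0.2 = 0
      rw [Polynomial.eval_map, Polynomial.eval₂_at_apply, Polynomial.eval_map, Polynomial.eval₂_at_apply,
        ← map_mul, ← map_add, b, map_zero]
  · have := congrArg (Polynomial.map φ) h3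
    rw [Polynomial.map_sub, Polynomial.map_mul, Polynomial.map_pow, Polynomial.map_pow, Polynomial.map_mul,
      Polynomial.map_C, Polynomial.map_multiset_prod, Multiset.map_map] at this
    rw [this, Multiset.map_map]
    congr 2
    apply Multiset.map_congr rfl
    intro s _
    simp

theorem fibral_map (f : MvPolynomial (Fin n) F) (z : ((Fin n → F) × F) →₀ ℤ) (hz : z ∈ Fibral f) :
    z.mapDomain (pm φ) ∈ Fibral (MvPolynomial.map φ f) := by
  obtain ⟨x, i, u, v, T, hT, rfl⟩ := hz
  refine ⟨fun k => φ (x k), i, u.map φ, v.map φ, T.map (Prod.map φ φ), ?_, ?_⟩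
  · have h := zeros_map φ hT
    rw [rst_map', single_map] at h
    exact h
  · have h : (Multiset.map (fun s : F × F => dl (mv x i s.1) s.2) T).sum.mapDomain (pm φ) =
        (Finsupp.mapDomain.addMonoidHom (pm φ)) (Multiset.map (fun s : F × F => dl (mv x i s.1) s.2) T).sum := rfl
    rw [h, map_multiset_sum, Multiset.map_map, Multiset.map_map]
    congr 1
    apply Multiset.map_congr rfl
    intro s _
    show (dl (mv x i s.1) s.2).mapDomain (pm φ) = dl (mv (fun k => φ (x k)) i (φ s.1)) (φ s.2)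
    rw [md_dl, mv_map]

theorem curves_map (f : MvPolynomial (Fin n) F) (z : ((Fin n → F) × F) →₀ ℤ) (hz : z ∈ Curves f) :
    z.mapDomain (pm φ) ∈ Curves (MvPolynomial.map φ f) := by
  obtain ⟨c, b, hb, rfl⟩ := hz
  refine ⟨fun k => (c k).map φ, b.map φ, ?_, ?_⟩
  · rw [← aeval_map', ← hb, Polynomial.map_pow]
  · have e0 : ∀ q : F[X], (q.map φ).eval 0 = φ (q.eval 0) := fun q => by
      rw [← map_zero φ, Polynomial.eval_map, Polynomial.eval₂_at_apply]
    have e1 : ∀ q : F[X], (q.map φ).eval 1 = φ (q.eval 1) := fun q => by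
      rw [← map_one φ, Polynomial.eval_map, Polynomial.eval₂_at_apply]
    rw [md_sub, md_pt, md_pt]
    simp only [e0, e1]

theorem fibres_map (f : MvPolynomial (Fin n) F) (z : ((Fin n → F) × F) →₀ ℤ) (hz : z ∈ Fibres f) :
    z.mapDomain (pm φ) ∈ Fibres (MvPolynomial.map φ f) := by
  obtain ⟨x, x', w, w', hw, hw', rfl⟩ := hz
  refine ⟨fun k => φ (x k), fun k => φ (x' k), φ w, φ w', ?_, ?_, ?_⟩
  · rw [← eval_map'', ← hw, map_pow]
  · rw [← eval_map'', ← hw', map_pow]
  · rw [md_sub, md_sub, md_add, md_pt, md_pt, md_pt, md_pt, map_neg, map_neg]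

end

theorem map : S_MAP := by
  intro F F' _ _ φ n f z hz
  show z.mapDomain (pm φ) ∈ Rat (MvPolynomial.map φ f)
  unfold Pool.Agent.Q35.ZC.Rat at hz
  induction hz using AddSubgroup.closure_induction with
  | mem z hz =>
    apply AddSubgroup.subset_closure
    rcases hz with (hz | hz) | hz
    · exact Or.inl (Or.inl (fibral_map φ f z hz))
    · exact Or.inl (Or.inr (curves_map φ f z hz))
    · exact Or.inr (fibres_map φ f z hz)
  | zero =>
    rw [Finsupp.mapDomain_zero]
    exact zero_mem _
  | add a b _ _ ha hb =>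
    rw [md_add]
    exact add_mem ha hb
  | neg a _ ha =>
    rw [md_neg]
    exact neg_mem ha

end Pool.Agent.Q210.ZC
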