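import Pool.Agent.Q210.ZC.Base

/-!
# Project ZC (helper51), job SMO: few integers have a large smooth part

Proof by helper210.
-/

set_option autoImplicit false

namespace Pool.Agent.Q210.ZC

open Finset
open Pool.Agent.Q51.EL (pr)
open Pool.Agent.Q51.ZC (S_SMO)

/-- the second theorem of Mertens at real arguments -/
theorem mert_real : ∃ C : ℝ, 0 ≤ C ∧ ∀ z : ℝ, 3 ≤ z →
    |∑ l ∈ pr z, (1 : ℝ) / l - Real.log (Real.log z)| ≤ C := by
  obtain ⟨C, hC⟩ := Pool.Agent.Erdos456.Mert.mertens_inv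
  refine ⟨|C| + Real.log 2, add_nonneg (abs_nonneg _) (Real.log_nonneg (by norm_num)),
    fun z hz => ?_⟩
  have hN3 : 3 ≤ ⌊z⌋₊ := Nat.le_floor (by exact_mod_cast hz)
  set N : ℕ := ⌊z⌋₊ with hN
  have h1 := hC N hN3
  have hNr : (3 : ℝ) ≤ N := by exact_mod_cast hN3
  have hNz : (N : ℝ) ≤ z := Nat.floor_le (by linarith)
  have hzN : z < N + 1 := Nat.lt_floor_add_one z
  have hlN : 0 < Real.log N := Real.log_pos (by linarith)
  have hlz : 0 < Real.log z := Real.log_pos (by linarith)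
  have h2 : Real.log N ≤ Real.log z := Real.log_le_log (by linarith) hNz
  have h3 : Real.log z ≤ 2 * Real.log N := by
    have h4 : Real.log z ≤ Real.log ((N : ℝ) ^ 2) := Real.log_le_log (by linarith) (by nlinarith)
    rwa [Real.log_pow, Nat.cast_ofNat] at h4
  have h4 : Real.log (Real.log N) ≤ Real.log (Real.log z) := Real.log_le_log hlN h2
  have h5 : Real.log (Real.log z) ≤ Real.log 2 + Real.log (Real.log N) := by
    rw [← Real.log_mul (by norm_num) hlN.ne']
    exact Real.log_le_log hlz h3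
  have h6 : |C| = |C| := rfl
  have h7 := le_abs_self C
  have h8 : ∑ l ∈ pr z, (1 : ℝ) / l = ∑ p ∈ (Finset.Icc 1 N).filter Nat.Prime, (1 : ℝ) / p := rfl
  rw [h8]
  rw [abs_le] at h1 ⊢
  constructor <;> linarith [h1.1, h1.2]

theorem card_mult (n s : ℕ) : (((Icc 1 n).filter fun m => s ∣ m).card : ℝ) ≤ (n : ℝ) / s := by
  have h1 : (Icc 1 n).filter (fun m => s ∣ m) = (Ioc 0 n).filter (fun m => s ∣ m) := rfl
  rw [h1, Nat.Ioc_filter_dvd_card_eq_div]
  exact Nat.cast_div_le

/-- properties of the smooth part -/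
theorem smo_props {z : ℝ} {m : ℕ} (hm : Squarefree m) :
    Squarefree (Pool.Agent.Q51.ZC.smo z m) ∧ Pool.Agent.Q51.ZC.smo z m ∣ m ∧
      (Pool.Agent.Q51.ZC.smo z m).primeFactors = m.primeFactors.filter (fun l : ℕ => (l : ℝ) ≤ z) := by
  have h1 : Pool.Agent.Q51.ZC.smo z m ∣ m := by
    conv_rhs => rw [← Nat.prod_primeFactors_of_squarefree hm]
    unfold Pool.Agent.Q51.ZC.smo
    exact Finset.prod_dvd_prod_of_subset _ _ _ (Finset.filter_subset _ _)
  refine ⟨hm.squarefree_of_dvd h1, h1, ?_⟩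
  unfold Pool.Agent.Q51.ZC.smo
  exact Nat.primeFactors_prod fun p hp => Nat.prime_of_mem_primeFactors (Finset.filter_subset _ _ hp)

/-- the product over the small primes -/
theorem prod_small : ∃ C : ℝ, 0 < C ∧ ∀ z : ℝ, 2 ≤ z →
    ∏ l ∈ pr z, (1 + Real.exp 1 * (1 / (l : ℝ))) ≤ C * Real.log z ^ 3 := by
  obtain ⟨C, hC0, hC⟩ := mert_real
  have hl2 : 0 < Real.log 2 := Real.log_pos (by norm_num)
  have he3 : Real.exp 1 ≤ 3 := by have := Real.exp_one_lt_d9; linarith
  refine ⟨Real.exp (3 * C) + Real.exp 3 / Real.log 2 ^ 3, by positivity, fun z hz => ?_⟩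
  have h0 : ∀ l ∈ pr z, 0 ≤ Real.exp 1 * (1 / (l : ℝ)) := fun l _ => by positivity
  refine (prod_le_exp _ _ h0).trans ?_
  rw [← Finset.mul_sum]
  have hs0 : 0 ≤ ∑ l ∈ pr z, (1 : ℝ) / l := Finset.sum_nonneg fun _ _ => by positivity
  have hlz : 0 < Real.log z := Real.log_pos (by linarith)
  have h1 : Real.exp (Real.exp 1 * ∑ l ∈ pr z, (1 : ℝ) / l) ≤
      Real.exp (3 * ∑ l ∈ pr z, (1 : ℝ) / l) :=
    Real.exp_le_exp.2 (mul_le_mul_of_nonneg_right he3 hs0)
  refine h1.trans ?_
  rcases le_or_gt 3 z with h3 | h3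
  · have h4 := (abs_le.1 (hC z h3)).2
    have h5 : Real.exp (3 * ∑ l ∈ pr z, (1 : ℝ) / l) ≤
        Real.exp (3 * C + 3 * Real.log (Real.log z)) := Real.exp_le_exp.2 (by linarith)
    refine h5.trans ?_
    have h6 : Real.exp (3 * C + 3 * Real.log (Real.log z)) = Real.exp (3 * C) * Real.log z ^ 3 := by
      rw [Real.exp_add]
      congr 1
      have : (3 : ℝ) * Real.log (Real.log z) = Real.log (Real.log z ^ 3) := by
        rw [Real.log_pow]
        norm_num
      rw [this, Real.exp_log (by positivity)]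
    rw [h6, add_mul]
    have : 0 ≤ Real.exp 3 / Real.log 2 ^ 3 * Real.log z ^ 3 := by positivity
    linarith
  · have h4 : ∑ l ∈ pr z, (1 : ℝ) / l ≤ 1 := by
      have h5 : pr z ⊆ {2} := by
        intro l hl
        rw [mem_pr] at hl
        have h6 : ⌊z⌋₊ ≤ 2 := by
          have : ⌊z⌋₊ < 3 := (Nat.floor_lt (by linarith)).2 (by exact_mod_cast h3)
          omega
        rw [Finset.mem_singleton]
        have := hl.1.two_le
        omega
      refine (Finset.sum_le_sum_of_subset_of_nonneg h5 fun _ _ _ => by positivity).trans ?_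
      rw [Finset.sum_singleton]
      norm_num
    have h5 : Real.exp (3 * ∑ l ∈ pr z, (1 : ℝ) / l) ≤ Real.exp 3 :=
      Real.exp_le_exp.2 (by linarith)
    refine h5.trans ?_
    have h6 : Real.log 2 ^ 3 ≤ Real.log z ^ 3 :=
      pow_le_pow_left₀ hl2.le (Real.log_le_log (by norm_num) hz) 3
    have h7 : Real.exp 3 = Real.exp 3 / Real.log 2 ^ 3 * Real.log 2 ^ 3 := by field_simp
    calc Real.exp 3 = Real.exp 3 / Real.log 2 ^ 3 * Real.log 2 ^ 3 := h7
      _ ≤ Real.exp 3 / Real.log 2 ^ 3 * Real.log z ^ 3 :=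
        mul_le_mul_of_nonneg_left h6 (by positivity)
      _ ≤ _ := by
        rw [add_mul]
        have : 0 ≤ Real.exp (3 * C) * Real.log z ^ 3 := by positivity
        linarith

theorem smo : S_SMO := by
  classical
  obtain ⟨C, hC0, hC⟩ := prod_small
  refine ⟨C, hC0, fun X z S hX hz hS => ?_⟩
  have hX0 : 0 < X := by linarith
  have hlz : 0 < Real.log z := Real.log_pos (by linarith)
  set A : Finset ℕ := (Icc 1 ⌊X⌋₊).filter (fun m : ℕ => Squarefree m ∧
    S < (Pool.Agent.Q51.ZC.smo z m : ℝ)) with hA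
  have hmem : ∀ m, m ∈ A ↔ (1 ≤ m ∧ m ≤ ⌊X⌋₊) ∧ Squarefree m ∧
      S < (Pool.Agent.Q51.ZC.smo z m : ℝ) := by
    intro m
    rw [hA, Finset.mem_filter, Finset.mem_Icc]
  set SS : Finset ℕ := A.image (Pool.Agent.Q51.ZC.smo z) with hSS
  have h1 : (A.card : ℝ) ≤ ∑ s ∈ SS, X / s := by
    rw [Finset.card_eq_sum_card_image (Pool.Agent.Q51.ZC.smo z) A]
    push_cast
    refine Finset.sum_le_sum fun s _ => ?_
    have h2 : (A.filter fun m => Pool.Agent.Q51.ZC.smo z m = s) ⊆
        (Icc 1 ⌊X⌋₊).filter fun m => s ∣ m := by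
      intro m hm
      rw [Finset.mem_filter] at hm
      obtain ⟨h3, h4⟩ := hm
      obtain ⟨h5, h6, _⟩ := (hmem m).1 h3
      rw [Finset.mem_filter, Finset.mem_Icc]
      refine ⟨h5, ?_⟩
      rw [← h4]
      exact (smo_props h6).2.1
    have h3 : ((A.filter fun m => Pool.Agent.Q51.ZC.smo z m = s).card : ℝ) ≤
        (((Icc 1 ⌊X⌋₊).filter fun m => s ∣ m).card : ℝ) := by
      exact_mod_cast Finset.card_le_card h2
    refine h3.trans ((card_mult _ _).trans ?_)
    exact div_le_div_of_nonneg_right (Nat.floor_le hX0.le) (Nat.cast_nonneg _)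
  set κ : ℝ := 1 / Real.log z with hκ
  have hκ0 : 0 < κ := by positivity
  have hSp : ∀ s ∈ SS, Squarefree s ∧ s.primeFactors ⊆ pr z ∧ S < (s : ℝ) := by
    intro s hs
    obtain ⟨m, hm, rfl⟩ := Finset.mem_image.1 hs
    obtain ⟨h5, h6, h7⟩ := (hmem m).1 hm
    obtain ⟨h8, h9, h10⟩ := smo_props (z := z) h6
    refine ⟨h8, ?_, h7⟩
    rw [h10]
    intro l hl
    rw [Finset.mem_filter] at hl
    rw [mem_pr]
    exact ⟨Nat.prime_of_mem_primeFactors hl.1, Nat.le_floor hl.2⟩
  have h2 : ∀ s ∈ SS, X / s ≤ X * Real.exp (-(Real.log S / Real.log z)) *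
      ∏ l ∈ s.primeFactors, Real.exp 1 * (1 / (l : ℝ)) := by
    intro s hs
    obtain ⟨h3, h4, h5⟩ := hSp s hs
    have hs0 : (0 : ℝ) < s := by linarith
    rw [Finset.prod_mul_distrib, ← inv_prod h3]
    have h6 : 1 ≤ Real.exp (-(Real.log S / Real.log z)) * ∏ _l ∈ s.primeFactors, Real.exp 1 := by
      have h7 : (1 : ℝ) ≤ Real.exp (κ * (Real.log s - Real.log S)) := by
        refine Real.one_le_exp (mul_nonneg hκ0.le ?_)
        have := Real.log_le_log (by linarith) h5.le
        linarith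
      refine h7.trans ?_
      have h8 : κ * (Real.log s - Real.log S) = -(Real.log S / Real.log z) + κ * Real.log s := by
        rw [hκ]
        ring
      rw [h8, Real.exp_add]
      refine mul_le_mul_of_nonneg_left ?_ (Real.exp_pos _).le
      have h9 : Real.log s = ∑ l ∈ s.primeFactors, Real.log l := by
        conv_lhs => rw [← Nat.prod_primeFactors_of_squarefree h3]
        push_cast
        rw [Real.log_prod]
        intro l hl
        have := (Nat.prime_of_mem_primeFactors hl).pos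
        positivity
      rw [h9, Finset.mul_sum, Real.exp_sum]
      refine Finset.prod_le_prod (fun _ _ => (Real.exp_pos _).le) fun l hl => ?_
      refine Real.exp_le_exp.2 ?_
      have h10 := mem_pr.1 (h4 hl)
      have hl0 : (0 : ℝ) < l := by exact_mod_cast h10.1.pos
      have h11 : (l : ℝ) ≤ z := (Nat.cast_le.2 h10.2).trans (Nat.floor_le (by linarith))
      rw [hκ, div_mul_eq_mul_div, one_mul, div_le_one hlz]
      exact Real.log_le_log hl0 h11
    have h7 : X / s = X * (1 / s) * 1 := by ring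
    rw [h7]
    have h8 : X * Real.exp (-(Real.log S / Real.log z)) *
        ((∏ _l ∈ s.primeFactors, Real.exp 1) * (1 / (s : ℝ))) = X * (1 / s) *
        (Real.exp (-(Real.log S / Real.log z)) * ∏ _l ∈ s.primeFactors, Real.exp 1) := by ring
    rw [h8]
    exact mul_le_mul_of_nonneg_left h6 (by positivity)
  have h3 : ∑ s ∈ SS, X / s ≤ X * Real.exp (-(Real.log S / Real.log z)) *
      ∏ l ∈ pr z, (1 + Real.exp 1 * (1 / (l : ℝ))) := by
    refine (Finset.sum_le_sum h2).trans ?_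
    rw [← Finset.mul_sum]
    refine mul_le_mul_of_nonneg_left ?_ (by positivity)
    exact sum_sqf_le (pr z) SS (fun s hs => ⟨(hSp s hs).1, (hSp s hs).2.1⟩) _
      fun l _ => by positivity
  have h4 : X * Real.exp (-(Real.log S / Real.log z)) *
      ∏ l ∈ pr z, (1 + Real.exp 1 * (1 / (l : ℝ))) ≤
      X * Real.exp (-(Real.log S / Real.log z)) * (C * Real.log z ^ 3) :=
    mul_le_mul_of_nonneg_left (hC z hz) (by positivity)
  refine le_trans ?_ ((h1.trans h3).trans (h4.trans (le_of_eq ?_)))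
  · exact le_of_eq (by rfl)
  · ring

end Pool.Agent.Q210.ZC
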