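import Pool.Agent.Q210.ZC.SMO

/-!
# Project ZC (helper51), job SUMM: the final sum over `m`

Proof by helper210.
-/

set_option autoImplicit false

namespace Pool.Agent.Q210.ZC

open Finset
open Pool.Agent.Q51.EL (pr)
open Pool.Agent.Q51.ZC (S_SUMM kap)

theorem kap_nonneg (q l : ℕ) : 0 ≤ kap q l := by
  unfold kap
  split_ifs <;> positivity

theorem kap_le_one {q : ℕ} (hq : 1 ≤ q) (l : ℕ) : kap q l ≤ 1 := by
  unfold kap
  split_ifs
  · exact le_rfl
  · rw [div_le_one (by exact_mod_cast hq)]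
    exact_mod_cast hq

theorem exp_le_mul (t : ℝ) : Real.exp t ≤ 1 + t * Real.exp t := by
  have h1 := Real.add_one_le_exp (-t)
  have h2 := mul_le_mul_of_nonneg_right h1 (Real.exp_pos t).le
  rw [← Real.exp_add, neg_add_cancel, Real.exp_zero] at h2
  linarith

theorem summ : S_SUMM := by
  classical
  intro q hq
  obtain ⟨C, hC0, hC⟩ := mert_real
  have hs : Summable (fun n : ℕ => 1 / (n : ℝ) ^ 2) := Real.summable_one_div_nat_pow.2 (by norm_num)
  set K : ℝ := ∑' n : ℕ, 1 / (n : ℝ) ^ 2 with hK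
  set G : ℝ := (q : ℝ) ^ q * Real.exp q with hG
  have hG0 : 0 ≤ G := by positivity
  refine ⟨Real.exp (q * Real.exp q * K + G * (2 * C)), Real.exp_pos _, fun P z X hz hzX => ?_⟩
  have hX3 : 3 ≤ X := hz.trans hzX
  have hlz : 0 < Real.log z := Real.log_pos (by linarith)
  have hlX : 0 < Real.log X := Real.log_pos (by linarith)
  set A : Finset ℕ := (Icc 1 ⌊X⌋₊).filter (fun m : ℕ => Squarefree m ∧
    ∀ l : ℕ, l.Prime → l ∣ m → l ∈ P) with hA
  have hmem : ∀ m, m ∈ A ↔ (1 ≤ m ∧ m ≤ ⌊X⌋₊) ∧ Squarefree m ∧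
      ∀ l : ℕ, l.Prime → l ∣ m → l ∈ P := by
    intro m
    rw [hA, Finset.mem_filter, Finset.mem_Icc]
  set Q : Finset ℕ := (pr X).filter (fun l => l ∈ P) with hQ
  set h : ℕ → ℝ := fun l => (1 / (l : ℝ)) *
    ((if (l : ℝ) ≤ z then kap q l else (q : ℝ) ^ q) * Real.exp ((q : ℝ) / l)) with hh
  have h0 : ∀ l ∈ Q, 0 ≤ h l := by
    intro l _
    have : 0 ≤ (if (l : ℝ) ≤ z then kap q l else (q : ℝ) ^ q) := by
      split_ifs
      · exact kap_nonneg q l
      · positivity
    simp only [hh]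
    positivity
  have h1 : ∑ m ∈ A, (1 / (m : ℝ)) * ∏ l ∈ m.primeFactors,
      (if (l : ℝ) ≤ z then kap q l else (q : ℝ) ^ q) * Real.exp ((q : ℝ) / l) ≤
      Real.exp (∑ l ∈ Q, h l) := by
    have e1 : ∀ m ∈ A, (1 / (m : ℝ)) * ∏ l ∈ m.primeFactors,
        (if (l : ℝ) ≤ z then kap q l else (q : ℝ) ^ q) * Real.exp ((q : ℝ) / l) =
        ∏ l ∈ m.primeFactors, h l := by
      intro m hm
      rw [inv_prod ((hmem m).1 hm).2.1, ← Finset.prod_mul_distrib]
    rw [Finset.sum_congr rfl e1]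
    refine (sum_sqf_le Q A (fun m hm => ?_) h h0).trans (prod_le_exp _ _ h0)
    obtain ⟨h6, h7, h8⟩ := (hmem m).1 hm
    exact ⟨h7, pf_sub (Finset.mem_Icc.2 h6) h8⟩
  have h2 : ∑ l ∈ Q, h l ≤ ∑ l ∈ Q, kap q l / l + q * Real.exp q * K +
      G * (Real.log (Real.log X) - Real.log (Real.log z) + 2 * C) := by
    have e1 : ∀ l ∈ Q, h l ≤ kap q l / l + q * Real.exp q * (1 / (l : ℝ) ^ 2) +
        G * (if (l : ℝ) ≤ z then 0 else 1 / (l : ℝ)) := by
      intro l hl
      have hlp := (mem_pr.1 (Finset.mem_filter.1 hl).1).1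
      have hl1 : (1 : ℝ) ≤ l := by exact_mod_cast hlp.one_lt.le
      have hl0 : (0 : ℝ) < l := by linarith
      have hexp : Real.exp ((q : ℝ) / l) ≤ Real.exp q := by
        refine Real.exp_le_exp.2 ?_
        rw [div_le_iff₀ hl0]
        exact le_mul_of_one_le_right (Nat.cast_nonneg _) hl1
      simp only [hh]
      split_ifs with h3
      · have h4 := exp_le_mul ((q : ℝ) / l)
        have h5 : (q : ℝ) / l * Real.exp ((q : ℝ) / l) ≤ (q : ℝ) / l * Real.exp q :=
          mul_le_mul_of_nonneg_left hexp (by positivity)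
        have h6 : Real.exp ((q : ℝ) / l) ≤ 1 + (q : ℝ) / l * Real.exp q := by linarith
        have h7 := mul_le_mul_of_nonneg_left h6 (kap_nonneg q l)
        have h8 : kap q l * ((q : ℝ) / l * Real.exp q) ≤ 1 * ((q : ℝ) / l * Real.exp q) :=
          mul_le_mul_of_nonneg_right (kap_le_one (by omega) l) (by positivity)
        have h9 : kap q l * Real.exp ((q : ℝ) / l) ≤ kap q l + (q : ℝ) / l * Real.exp q := by
          linarith
        have h10 := mul_le_mul_of_nonneg_left h9 (by positivity : (0 : ℝ) ≤ 1 / l)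
        have h11 : 1 / (l : ℝ) * (kap q l + (q : ℝ) / l * Real.exp q) =
            kap q l / l + q * Real.exp q * (1 / (l : ℝ) ^ 2) := by
          field_simp
        rw [h11] at h10
        linarith
      · have h4 : (q : ℝ) ^ q * Real.exp ((q : ℝ) / l) ≤ G :=
          mul_le_mul_of_nonneg_left hexp (by positivity)
        have h5 := mul_le_mul_of_nonneg_left h4 (by positivity : (0 : ℝ) ≤ 1 / l)
        have h6 : 0 ≤ kap q l / l := div_nonneg (kap_nonneg q l) hl0.le
        have h7 : 0 ≤ (q : ℝ) * Real.exp q * (1 / (l : ℝ) ^ 2) := by positivity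
        linarith
    refine (Finset.sum_le_sum e1).trans ?_
    rw [Finset.sum_add_distrib, Finset.sum_add_distrib, ← Finset.mul_sum, ← Finset.mul_sum]
    have e2 : ∑ l ∈ Q, 1 / (l : ℝ) ^ 2 ≤ K := hs.sum_le_tsum Q fun n _ => by positivity
    have e3 : ∑ l ∈ Q, (if (l : ℝ) ≤ z then 0 else 1 / (l : ℝ)) ≤
        Real.log (Real.log X) - Real.log (Real.log z) + 2 * C := by
      have h3 : ∑ l ∈ Q, (if (l : ℝ) ≤ z then 0 else 1 / (l : ℝ)) ≤
          ∑ l ∈ pr X, (if (l : ℝ) ≤ z then 0 else 1 / (l : ℝ)) := by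
        refine Finset.sum_le_sum_of_subset_of_nonneg (Finset.filter_subset _ _) fun l _ _ => ?_
        split_ifs <;> positivity
      have h4 : ∑ l ∈ pr X, (if (l : ℝ) ≤ z then 0 else 1 / (l : ℝ)) =
          ∑ l ∈ pr X, (1 : ℝ) / l - ∑ l ∈ pr z, (1 : ℝ) / l := by
        have h5 : pr z = (pr X).filter (fun l : ℕ => (l : ℝ) ≤ z) := by
          ext l
          rw [Finset.mem_filter, mem_pr, mem_pr]
          constructor
          · rintro ⟨h6, h7⟩
            exact ⟨⟨h6, h7.trans (Nat.floor_le_floor hzX)⟩,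
              (Nat.cast_le.2 h7).trans (Nat.floor_le (by linarith))⟩
          · rintro ⟨⟨h6, h7⟩, h8⟩
            exact ⟨h6, Nat.le_floor h8⟩
        rw [h5, Finset.sum_filter, ← Finset.sum_sub_distrib]
        refine Finset.sum_congr rfl fun l _ => ?_
        split_ifs <;> ring
      have h5 := (abs_le.1 (hC X hX3)).2
      have h6 := (abs_le.1 (hC z hz)).1
      linarith
    have e4 := mul_le_mul_of_nonneg_left e2 (by positivity : (0 : ℝ) ≤ q * Real.exp q)
    have e5 := mul_le_mul_of_nonneg_left e3 hG0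
    linarith
  have h3 : Real.exp (∑ l ∈ Q, h l) ≤ Real.exp (q * Real.exp q * K + G * (2 * C)) *
      Real.exp (∑ l ∈ Q, kap q l / l) * (Real.log X / Real.log z) ^ G := by
    rw [Real.rpow_def_of_pos (by positivity), Real.log_div hlX.ne' hlz.ne', ← Real.exp_add,
      ← Real.exp_add]
    refine Real.exp_le_exp.2 ?_
    linarith
  refine le_trans ?_ (h1.trans h3)
  exact le_of_eq (by rfl)

end Pool.Agent.Q210.ZC
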